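import Pool.Agent.Y727.RP.Stm

/-! Job RP-ABEL (helper762): from partial sums to Abel sums. -/

set_option autoImplicit false

open Finset

namespace Pool.Agent.Y762.RP.Abel

open Pool.Agent.Y727.RP

theorem t_abel : Pool.Agent.Y727.RP.S_ABEL := by
  intro a B M ha hB hP
  have hmono : ∀ N : ℕ, ∑ n ∈ range N, a n ≤ B * M + B * N := by
    intro N
    rcases le_total M N with h | h
    · have := hP N h
      have h2 : 0 ≤ B * (M : ℝ) := by positivity
      linarith
    · have h1 : ∑ n ∈ range N, a n ≤ ∑ n ∈ range M, a n :=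
        sum_le_sum_of_subset_of_nonneg (range_mono h) fun i _ _ => ha i
      have h2 := hP M le_rfl
      have h3 : 0 ≤ B * (N : ℝ) := by positivity
      linarith
  refine ⟨B * M, by positivity, fun x hx0 hx1 => ?_⟩
  have hind : ∀ N : ℕ, ∑ n ∈ range N, a n * x ^ n ≤ B * M + B * ∑ n ∈ range N, x ^ n -
      (B * M + B * N - ∑ n ∈ range N, a n) * x ^ N := by
    intro N
    induction N with
    | zero => simp
    | succ N ih =>
      have h1 := hmono (N + 1)
      have h2 : x ^ (N + 1) ≤ x ^ N := pow_le_pow_of_le_one hx0 hx1.le (Nat.le_succ N)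
      have h3 : 0 ≤ B * (M : ℝ) + B * ((N + 1 : ℕ) : ℝ) - ∑ n ∈ range (N + 1), a n := by linarith
      have h4 := mul_le_mul_of_nonneg_left h2 h3
      have e : (B * (M : ℝ) + B * ((N + 1 : ℕ) : ℝ) - ∑ n ∈ range (N + 1), a n) * x ^ N =
          (B * (M : ℝ) + B * (N : ℝ) - ∑ n ∈ range N, a n) * x ^ N + B * x ^ N - a N * x ^ N := by
        rw [sum_range_succ]; push_cast; ring
      rw [sum_range_succ (fun n => a n * x ^ n), sum_range_succ (fun n => x ^ n), mul_add]
      linarith
  have hgeo : ∀ N : ℕ, ∑ n ∈ range N, x ^ n ≤ (1 - x)⁻¹ := by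
    intro N
    rw [← tsum_geometric_of_lt_one hx0 hx1]
    exact (summable_geometric_of_lt_one hx0 hx1).sum_le_tsum _ fun n _ => by positivity
  have hbd : ∀ N : ℕ, ∑ n ∈ range N, a n * x ^ n ≤ B * M + B / (1 - x) := by
    intro N
    have h1 := hind N
    have h2 : 0 ≤ (B * M + B * N - ∑ n ∈ range N, a n) * x ^ N :=
      mul_nonneg (by linarith [hmono N]) (by positivity)
    have h3 := mul_le_mul_of_nonneg_left (hgeo N) hB
    rw [div_eq_mul_inv]
    linarith
  exact ⟨summable_of_sum_range_le (fun n => mul_nonneg (ha n) (by positivity)) hbd,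
    Real.tsum_le_of_sum_range_le (fun n => mul_nonneg (ha n) (by positivity)) hbd⟩

end Pool.Agent.Y762.RP.Abel
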