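import Pool.Agent.Y727.RP.Stm

/-! Job RP-PROD (helper762): the square of the generating function of `A`. -/

set_option autoImplicit false

open Finset

namespace Pool.Agent.Y762.RP.Prod

open Pool.Agent.Y727.RP

lemma ind_abs (A : Set ℕ) (n : ℕ) : |ind A n| ≤ 1 := by
  unfold ind Set.indicator
  split_ifs <;> simp

lemma rep_eq (A : Set ℕ) (n : ℕ) :
    (rep A n : ℝ) = ∑ p ∈ antidiagonal n, ind A p.1 * ind A p.2 := by
  classical
  have h1 : {p : ℕ × ℕ | p.1 ∈ A ∧ p.2 ∈ A ∧ p.1 + p.2 = n} =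
      ↑((antidiagonal n).filter (fun p => p.1 ∈ A ∧ p.2 ∈ A)) := by
    ext p
    simp only [Set.mem_ofPred_eq, coe_filter, Finset.HasAntidiagonal.mem_antidiagonal]
    tauto
  unfold rep
  rw [h1, Set.ncard_coe_finset, card_filter]
  push_cast
  refine sum_congr rfl fun p _ => ?_
  unfold ind Set.indicator
  by_cases ha : p.1 ∈ A <;> by_cases hb : p.2 ∈ A <;> simp [ha, hb]

lemma rep_le (A : Set ℕ) (n : ℕ) : |(rep A n : ℝ)| ≤ n + 1 := by
  rw [rep_eq]
  refine le_trans (abs_sum_le_sum_abs _ _) ?_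
  refine le_trans (sum_le_card_nsmul _ _ 1 fun p _ => ?_) ?_
  · rw [abs_mul]
    exact mul_le_one₀ (ind_abs A _) (abs_nonneg _) (ind_abs A _)
  · simp

theorem t_prod : Pool.Agent.Y727.RP.S_PROD := by
  intro A z hz
  have hz0 : 0 ≤ ‖z‖ := norm_nonneg z
  have hs1 : Summable (fun n => |ind A n| * ‖z‖ ^ n) := by
    refine Summable.of_nonneg_of_le (fun n => by positivity) (fun n => ?_)
      (summable_geometric_of_lt_one hz0 hz)
    calc |ind A n| * ‖z‖ ^ n ≤ 1 * ‖z‖ ^ n :=
          mul_le_mul_of_nonneg_right (ind_abs A n) (by positivity)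
      _ = ‖z‖ ^ n := one_mul _
  have hs2 : Summable (fun n => |(rep A n : ℝ)| * ‖z‖ ^ n) := by
    have h1 : Summable (fun n : ℕ => ((n : ℝ) ^ 1) * ‖z‖ ^ n) :=
      summable_pow_mul_geometric_of_norm_lt_one 1 (by rwa [norm_norm])
    have h2 : Summable (fun n : ℕ => ((n : ℝ) + 1) * ‖z‖ ^ n) := by
      refine (h1.add (summable_geometric_of_lt_one hz0 hz)).congr fun n => ?_
      ring
    refine Summable.of_nonneg_of_le (fun n => by positivity) (fun n => ?_) h2
    exact mul_le_mul_of_nonneg_right (rep_le A n) (by positivity)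
  refine ⟨hs1, hs2, ?_⟩
  have hn : Summable (fun n => ‖(ind A n : ℂ) * z ^ n‖) := by
    refine hs1.congr fun n => ?_
    rw [norm_mul, norm_pow, Complex.norm_real, Real.norm_eq_abs]
  unfold ps
  rw [sq, tsum_mul_tsum_eq_tsum_sum_antidiagonal_of_summable_norm hn hn]
  refine tsum_congr fun n => ?_
  show _ = (((rep A n : ℝ)) : ℂ) * z ^ n
  rw [rep_eq]
  push_cast
  rw [sum_mul]
  refine sum_congr rfl fun p hp => ?_
  rw [Finset.HasAntidiagonal.mem_antidiagonal] at hp
  rw [← hp, pow_add]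
  ring

end Pool.Agent.Y762.RP.Prod
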